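import Pool.Agent.H61.HB.Stmts4

/-!
Project HB, row DLW: `(Δ² - N⁴) W` is of size `N²` in `H^(-1)`.
-/

set_option autoImplicit false

namespace HB

private lemma dlw_sq_nonneg (k : Z2) : 0 ≤ sq k := by
  unfold sq
  positivity

private lemma dlw_key (M N : ℝ) (c a : Z2) (hM : 0 ≤ M) (hN : 2 * M ≤ N) (hc : sq c = N ^ 2)
    (ha : sq a ≤ M ^ 2) : |sq (c + a) ^ 2 - N ^ 4| ≤ 12 * M * N ^ 3 := by
  have hN0 : 0 ≤ N := by linarith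
  have hs : 0 ≤ sq a := dlw_sq_nonneg a
  set d : ℝ := (c.1 : ℝ) * (a.1 : ℝ) + (c.2 : ℝ) * (a.2 : ℝ) with hd
  have hexp : sq (c + a) = N ^ 2 + (2 * d + sq a) := by
    rw [← hc]
    simp only [sq, hd, Prod.fst_add, Prod.snd_add, Int.cast_add]
    ring
  have hd2 : d ^ 2 ≤ (N * M) ^ 2 := by
    have h1 : d ^ 2 ≤ sq c * sq a := by
      simp only [sq, hd]
      nlinarith [sq_nonneg ((c.1 : ℝ) * (a.2 : ℝ) - (c.2 : ℝ) * (a.1 : ℝ))]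
    calc d ^ 2 ≤ sq c * sq a := h1
      _ ≤ N ^ 2 * M ^ 2 := by
        rw [hc]
        exact mul_le_mul_of_nonneg_left ha (sq_nonneg N)
      _ = (N * M) ^ 2 := by ring
  have hdabs : |d| ≤ N * M := abs_le_of_sq_le_sq hd2 (mul_nonneg hN0 hM)
  have hMM : M ^ 2 ≤ N * M := by nlinarith
  have hNM : N * M ≤ N ^ 2 / 2 := by nlinarith
  obtain ⟨hdl, hdu⟩ := abs_le.mp hdabs
  have ht : |2 * d + sq a| ≤ 3 * (N * M) := by
    rw [abs_le]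
    constructor <;> linarith
  obtain ⟨htl, htu⟩ := abs_le.mp ht
  have ht2 : |2 * N ^ 2 + (2 * d + sq a)| ≤ 4 * N ^ 2 := by
    rw [abs_le]
    constructor <;> nlinarith [sq_nonneg N]
  have hfac : sq (c + a) ^ 2 - N ^ 4 = (2 * d + sq a) * (2 * N ^ 2 + (2 * d + sq a)) := by
    rw [hexp]
    ring
  rw [hfac, abs_mul]
  calc |2 * d + sq a| * |2 * N ^ 2 + (2 * d + sq a)| ≤ (3 * (N * M)) * (4 * N ^ 2) :=
        mul_le_mul ht ht2 (abs_nonneg _) (by positivity)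
    _ = 12 * M * N ^ 3 := by ring

private lemma dlw_car (N : ℕ) (i : Fin 4) : sq (car (N : ℤ) i) = (N : ℝ) ^ 2 := by
  fin_cases i <;> simp [car, dir, sgn, sq]

private lemma dlw_four (a : Fin 4 → ℂ) : ‖∑ i, a i‖ ^ 2 ≤ 4 * ∑ i, ‖a i‖ ^ 2 := by
  have h1 : ‖∑ i, a i‖ ≤ ∑ i, ‖a i‖ := norm_sum_le _ _
  have h2 : (∑ i : Fin 4, ‖a i‖) ^ 2 ≤ (Finset.univ : Finset (Fin 4)).card * ∑ i, ‖a i‖ ^ 2 :=
    sq_sum_le_card_mul_sum_sq
  have h3 : ‖∑ i, a i‖ ^ 2 ≤ (∑ i, ‖a i‖) ^ 2 :=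
    pow_le_pow_left₀ (norm_nonneg _) h1 2
  simp only [Finset.card_univ, Fintype.card_fin] at h2
  push_cast at h2
  linarith

private lemma dlw_pt (ν M : ℝ) (p : V) (N : ℕ) (hM : 0 ≤ M) (hN : 2 * M ≤ N)
    (hpro : ∀ i, Fs M (pro ν p i)) (j : Fin 2) (k : Z2) :
    ‖((sq k ^ 2 - (N : ℝ) ^ 4 : ℝ) : ℂ) * osc ν p (N : ℤ) j k‖ ^ 2 ≤
      ∑ i : Fin 4, (576 * M ^ 2 * (N : ℝ) ^ 6) * ‖sh (car (N : ℤ) i) (pro ν p i) j k‖ ^ 2 := by
  have h0 : ((sq k ^ 2 - (N : ℝ) ^ 4 : ℝ) : ℂ) * osc ν p (N : ℤ) j k =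
      ∑ i : Fin 4, ((sq k ^ 2 - (N : ℝ) ^ 4 : ℝ) : ℂ) * sh (car (N : ℤ) i) (pro ν p i) j k := by
    unfold osc
    rw [Finset.mul_sum]
  rw [h0]
  refine (dlw_four _).trans ?_
  rw [Finset.mul_sum]
  apply Finset.sum_le_sum
  intro i _
  by_cases hz : sh (car (N : ℤ) i) (pro ν p i) j k = 0
  · rw [hz]
    simp
  · have hle : sq (k - car (N : ℤ) i) ≤ M ^ 2 := by
      by_contra hcon
      exact hz (hpro i j _ (not_le.mp hcon))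
    have hkey := dlw_key M N (car (N : ℤ) i) (k - car (N : ℤ) i) hM hN (dlw_car N i) hle
    rw [add_sub_cancel] at hkey
    rw [norm_mul, Complex.norm_real, Real.norm_eq_abs, mul_pow]
    have h2 : |sq k ^ 2 - (N : ℝ) ^ 4| ^ 2 ≤ (12 * M * (N : ℝ) ^ 3) ^ 2 :=
      pow_le_pow_left₀ (abs_nonneg _) hkey 2
    have h3 : (12 * M * (N : ℝ) ^ 3) ^ 2 = 144 * M ^ 2 * (N : ℝ) ^ 6 := by ring
    rw [h3] at h2
    have h4 := mul_le_mul_of_nonneg_right h2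
      (sq_nonneg ‖sh (car (N : ℤ) i) (pro ν p i) j k‖)
    linarith

theorem dlw_thm (h1 : SHFStmt) (h2 : FSBStmt) (h3 : MMBStmt) : DLWStmt := by
  intro ν M p hM hp
  obtain ⟨_, _, _, _, _, h6, _⟩ := h2
  obtain ⟨_, _, _, hnn, _, _⟩ := h3
  have hpro : ∀ i, Fs M (pro ν p i) := h6 M ν p hM hp
  have hS : 0 ≤ ∑ i : Fin 4, nsq 0 (pro ν p i) := Finset.sum_nonneg (fun i _ => hnn 0 _)
  refine ⟨2304 * M ^ 2 * ∑ i : Fin 4, nsq 0 (pro ν p i), ⌈2 * M⌉₊, by positivity, ?_⟩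
  intro N hN0 hN1
  have hN2 : 2 * M ≤ (N : ℝ) := Nat.ceil_le.mp hN0
  have hN3 : (0 : ℝ) < N := by exact_mod_cast hN1
  have hsh : ∀ i, Mem (-1) (sh (car (N : ℤ) i) (pro ν p i)) ∧
      nsq (-1) (sh (car (N : ℤ) i) (pro ν p i)) ≤ ((N : ℝ) ^ 2 / 4) ^ (-1 : ℝ) *
        nsq 0 (pro ν p i) := fun i =>
    h1 M N (-1) (car (N : ℤ) i) (pro ν p i) hM hN2 hN3 (dlw_car N i).ge (by norm_num) (hpro i)
  have hcomp : ∀ j : Fin 2, nqS (-1) (fun k => ((sq k ^ 2 - (N : ℝ) ^ 4 : ℝ) : ℂ) *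
      osc ν p (N : ℤ) j k) ≤ ∑ i : Fin 4, (576 * M ^ 2 * (N : ℝ) ^ 6) *
        nqS (-1) (sh (car (N : ℤ) i) (pro ν p i) j) := by
    intro j
    have hsum : ∀ i ∈ (Finset.univ : Finset (Fin 4)), Summable fun k =>
        (576 * M ^ 2 * (N : ℝ) ^ 6) *
          ((1 + sq k) ^ (-1 : ℝ) * ‖sh (car (N : ℤ) i) (pro ν p i) j k‖ ^ 2) :=
      fun i _ => ((hsh i).1 j).mul_left _
    have hpt : ∀ k, (1 + sq k) ^ (-1 : ℝ) *
        ‖((sq k ^ 2 - (N : ℝ) ^ 4 : ℝ) : ℂ) * osc ν p (N : ℤ) j k‖ ^ 2 ≤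
        ∑ i : Fin 4, (576 * M ^ 2 * (N : ℝ) ^ 6) *
          ((1 + sq k) ^ (-1 : ℝ) * ‖sh (car (N : ℤ) i) (pro ν p i) j k‖ ^ 2) := by
      intro k
      have hw : 0 ≤ (1 + sq k) ^ (-1 : ℝ) :=
        Real.rpow_nonneg (by linarith [dlw_sq_nonneg k]) _
      have := mul_le_mul_of_nonneg_left (dlw_pt ν M p N hM hN2 hpro j k) hw
      refine this.trans (le_of_eq ?_)
      rw [Finset.mul_sum]
      apply Finset.sum_congr rfl
      intro i _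
      ring
    have hsR : Summable fun k => ∑ i : Fin 4, (576 * M ^ 2 * (N : ℝ) ^ 6) *
          ((1 + sq k) ^ (-1 : ℝ) * ‖sh (car (N : ℤ) i) (pro ν p i) j k‖ ^ 2) :=
      summable_sum hsum
    have hsL : Summable fun k => (1 + sq k) ^ (-1 : ℝ) *
        ‖((sq k ^ 2 - (N : ℝ) ^ 4 : ℝ) : ℂ) * osc ν p (N : ℤ) j k‖ ^ 2 := by
      refine Summable.of_nonneg_of_le (fun k => ?_) hpt hsR
      exact mul_nonneg (Real.rpow_nonneg (by linarith [dlw_sq_nonneg k]) _) (sq_nonneg _)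
    unfold nqS
    refine (hsL.tsum_le_tsum hpt hsR).trans (le_of_eq ?_)
    rw [Summable.tsum_finsetSum hsum]
    apply Finset.sum_congr rfl
    intro i _
    rw [tsum_mul_left]
  have hpow : ((N : ℝ) ^ 2 / 4) ^ (-1 : ℝ) = 4 / (N : ℝ) ^ 2 := by
    rw [Real.rpow_neg_one, inv_div]
  calc nsq (-1) (fun j k => ((sq k ^ 2 - (N : ℝ) ^ 4 : ℝ) : ℂ) * osc ν p (N : ℤ) j k)
      = ∑ j, nqS (-1) (fun k => ((sq k ^ 2 - (N : ℝ) ^ 4 : ℝ) : ℂ) *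
          osc ν p (N : ℤ) j k) := rfl
    _ ≤ ∑ j : Fin 2, ∑ i : Fin 4, (576 * M ^ 2 * (N : ℝ) ^ 6) *
        nqS (-1) (sh (car (N : ℤ) i) (pro ν p i) j) := Finset.sum_le_sum (fun j _ => hcomp j)
    _ = ∑ i : Fin 4, (576 * M ^ 2 * (N : ℝ) ^ 6) * nsq (-1) (sh (car (N : ℤ) i) (pro ν p i)) := by
        rw [Finset.sum_comm]
        apply Finset.sum_congr rfl
        intro i _
        rw [← Finset.mul_sum]
        rfl
    _ ≤ ∑ i : Fin 4, (576 * M ^ 2 * (N : ℝ) ^ 6) * (4 / (N : ℝ) ^ 2 * nsq 0 (pro ν p i)) := by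
        apply Finset.sum_le_sum
        intro i _
        have := (hsh i).2
        rw [hpow] at this
        exact mul_le_mul_of_nonneg_left this (by positivity)
    _ = 2304 * M ^ 2 * (∑ i : Fin 4, nsq 0 (pro ν p i)) * (N : ℝ) ^ 4 := by
        rw [← Finset.mul_sum, ← Finset.mul_sum]
        field_simp
        ring

end HB
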