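import Pool.Agent.H61.HB.Stmts

/-!
Row SGC of board hbg (MP_91403e_an): the semigroup is a contraction of `H^s` and strongly continuous.
-/

set_option autoImplicit false

namespace HB

open Filter Topology

theorem sgc_exp_le {ν t : ℝ} (k : Z2) (hν : 0 < ν) (ht : 0 ≤ t) :
    Real.exp (-(ν * sq k ^ 2) * t) ≤ 1 := by
  rw [Real.exp_le_one_iff]
  have h1 : 0 ≤ ν * sq k ^ 2 * t := by positivity
  linarith [h1, neg_mul (ν * sq k ^ 2) t]

theorem sgc_norm {ν t : ℝ} (hν : 0 < ν) (ht : 0 ≤ t) (u : V) (j : Fin 2) (k : Z2) :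
    ‖sgr ν t u j k‖ ≤ ‖u j k‖ := by
  unfold sgr
  rw [norm_mul, Complex.norm_real, Real.norm_of_nonneg (Real.exp_nonneg _)]
  calc Real.exp (-(ν * sq k ^ 2) * t) * ‖u j k‖ ≤ 1 * ‖u j k‖ :=
        mul_le_mul_of_nonneg_right (sgc_exp_le k hν ht) (norm_nonneg _)
    _ = ‖u j k‖ := one_mul _

theorem sgc_wt (s : ℝ) (k : Z2) : 0 ≤ (1 + sq k) ^ s := by
  apply Real.rpow_nonneg
  unfold sq
  positivity

theorem sgc_diff {ν r t : ℝ} (hν : 0 < ν) (hr : 0 ≤ r) (ht : 0 ≤ t) (u : V) (j : Fin 2) (k : Z2) :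
    ‖(sgr ν r u - sgr ν t u) j k‖ ≤ ‖u j k‖ := by
  have h0 : (sgr ν r u - sgr ν t u) j k =
      ((Real.exp (-(ν * sq k ^ 2) * r) - Real.exp (-(ν * sq k ^ 2) * t) : ℝ) : ℂ) * u j k := by
    have h1 : (sgr ν r u - sgr ν t u) j k = sgr ν r u j k - sgr ν t u j k := rfl
    rw [h1]
    unfold sgr
    push_cast
    ring
  rw [h0, norm_mul, Complex.norm_real]
  have h2 : ‖Real.exp (-(ν * sq k ^ 2) * r) - Real.exp (-(ν * sq k ^ 2) * t)‖ ≤ 1 := by
    rw [Real.norm_eq_abs, abs_le]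
    have h3 := sgc_exp_le k hν hr
    have h4 := sgc_exp_le k hν ht
    have h5 := Real.exp_pos (-(ν * sq k ^ 2) * r)
    have h6 := Real.exp_pos (-(ν * sq k ^ 2) * t)
    constructor <;> linarith
  calc _ ≤ 1 * ‖u j k‖ := mul_le_mul_of_nonneg_right h2 (norm_nonneg _)
    _ = ‖u j k‖ := one_mul _

theorem sgc_mem {ν s t : ℝ} (hν : 0 < ν) (ht : 0 ≤ t) {u : V} (hu : Mem s u) :
    Mem s (sgr ν t u) := by
  intro j
  refine Summable.of_nonneg_of_le (fun k => ?_) (fun k => ?_) (hu j)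
  · exact mul_nonneg (sgc_wt s k) (sq_nonneg _)
  · exact mul_le_mul_of_nonneg_left
      (pow_le_pow_left₀ (norm_nonneg _) (sgc_norm hν ht u j k) 2) (sgc_wt s k)

theorem sgc_tendsto {ν s T : ℝ} (hν : 0 < ν) {u : V} (hu : Mem s u) {t : ℝ}
    (ht : t ∈ Set.Icc 0 T) (j : Fin 2) :
    Tendsto (fun r => nqS s ((sgr ν r u - sgr ν t u) j)) (nhdsWithin t (Set.Icc 0 T)) (nhds 0) := by
  unfold nqS
  have h0 : nhds (0 : ℝ) = nhds (∑' _ : Z2, (0 : ℝ)) := by simp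
  rw [h0]
  refine tendsto_tsum_of_dominated_convergence (hu j) (fun k => ?_) ?_
  · have h1 : Continuous fun r : ℝ => (1 + sq k) ^ s *
        ‖sgr ν r u j k - sgr ν t u j k‖ ^ 2 := by
      unfold sgr
      fun_prop
    have h2 := h1.tendsto t
    simp only [sub_self, norm_zero] at h2
    rw [zero_pow two_ne_zero, mul_zero] at h2
    exact h2.mono_left nhdsWithin_le_nhds
  · filter_upwards [self_mem_nhdsWithin] with r hr k
    rw [Real.norm_of_nonneg (mul_nonneg (sgc_wt s k) (sq_nonneg _))]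
    exact mul_le_mul_of_nonneg_left
      (pow_le_pow_left₀ (norm_nonneg _) (sgc_diff hν hr.1 ht.1 u j k) 2) (sgc_wt s k)

theorem sgc_thm (_hMMB : MMBStmt) : SGCStmt := by
  intro ν s T u hν hT hu
  refine ⟨⟨fun t ht => sgc_mem hν ht.1 hu, fun t ht => ?_⟩, fun t ht => ?_⟩
  · have h0 : nhds (0 : ℝ) = nhds (∑ _ : Fin 2, (0 : ℝ)) := by simp
    unfold nsq
    rw [h0]
    exact tendsto_finsetSum _ fun j _ => sgc_tendsto hν hu ht j
  · unfold nsq
    refine Finset.sum_le_sum fun j _ => ?_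
    unfold nqS
    refine Summable.tsum_le_tsum (fun k => ?_) (sgc_mem hν ht hu j) (hu j)
    exact mul_le_mul_of_nonneg_left
      (pow_le_pow_left₀ (norm_nonneg _) (sgc_norm hν ht u j k) 2) (sgc_wt s k)

end HB
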